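import Pool.Agent.H319R3.GC.Main

/-! Wiggin's maps `F_D` and the corresponding generalised Collatz maps of coprime type. -/

set_option autoImplicit false

namespace Pool.Agent.H319R3.Wiggin

open Finset

/-- Wiggin's map -/
def F (D : ℕ) (x : ℕ) : ℕ :=
  if x % D = 0 then x / D
  else if x % D = D - 1 then (D + 1) * x + 1
  else (D + 1) * x - x % D

/-- multipliers -/
def mm (D : ℕ) (i : ℕ) : ℤ := if i = 0 then 1 else (D : ℤ) + 1

/-- remainders -/
def rr (D : ℕ) (i : ℕ) : ℤ := if i = 0 then 0 else if i = D - 1 then -1 else i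

theorem mm_cop {D : ℕ} (i : ℕ) : IsCoprime (mm D i) (D : ℤ) := by
  unfold mm
  split_ifs
  · exact isCoprime_one_left
  · exact ⟨1, -1, by ring⟩

theorem adm {D : ℕ} (hD : 2 ≤ D) (i : ℕ) (hi : i < D) : (D : ℤ) ∣ mm D i * i - rr D i := by
  unfold mm rr
  split_ifs with h1 h2
  · subst h1; simp
  · subst h2
    refine ⟨(D : ℤ), ?_⟩
    have : ((D - 1 : ℕ) : ℤ) = D - 1 := by
      rw [Nat.cast_sub (by omega)]; simp
    rw [this]
    ring
  · exact ⟨i, by ring⟩

theorem prod_lt {D : ℕ} (hD : 2 ≤ D) : ∏ i ∈ range D, (mm D i).natAbs < D ^ D := by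
  obtain ⟨e, rfl⟩ : ∃ e, D = e + 1 := ⟨D - 1, by omega⟩
  rw [Finset.prod_range_succ']
  have h1 : ∀ i ∈ range e, (mm (e + 1) (i + 1)).natAbs = e + 2 := by
    intro i _
    unfold mm
    rw [if_neg (by omega)]
    push_cast
    omega
  rw [Finset.prod_congr rfl h1, Finset.prod_const, card_range]
  have h2 : (mm (e + 1) 0).natAbs = 1 := by simp [mm]
  rw [h2, mul_one]
  have he : 1 ≤ e := by omega
  rcases Nat.lt_or_ge e 2 with h | h
  · have : e = 1 := by omega
    subst this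
    norm_num
  have h3 : ((e : ℝ) + 2) ^ e < ((e : ℝ) + 1) ^ (e + 1) := by
    have hn1 : (2 : ℝ) ≤ e := by exact_mod_cast h
    have h4 : ((e : ℝ) + 2) / (e + 1) ≤ Real.exp (1 / ((e : ℝ) + 1)) := by
      have := Real.add_one_le_exp (1 / ((e : ℝ) + 1))
      refine le_trans (le_of_eq ?_) this
      field_simp
      ring
    have h5 : (((e : ℝ) + 2) / (e + 1)) ^ e ≤ Real.exp ((e : ℝ) / ((e : ℝ) + 1)) := by
      calc (((e : ℝ) + 2) / (e + 1)) ^ e ≤ (Real.exp (1 / ((e : ℝ) + 1))) ^ e := by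
            gcongr
        _ = Real.exp ((e : ℝ) / ((e : ℝ) + 1)) := by
            rw [← Real.exp_nat_mul]
            congr 1
            ring
    have h6 : Real.exp ((e : ℝ) / ((e : ℝ) + 1)) ≤ Real.exp 1 := by
      apply Real.exp_le_exp.2
      rw [div_le_one (by positivity)]
      linarith
    have h7 : Real.exp 1 < 3 := lt_trans Real.exp_one_lt_d9 (by norm_num)
    have h8 : (((e : ℝ) + 2) / (e + 1)) ^ e < (e : ℝ) + 1 := by linarith
    rw [div_pow, div_lt_iff₀ (by positivity)] at h8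
    calc ((e : ℝ) + 2) ^ e < ((e : ℝ) + 1) * ((e : ℝ) + 1) ^ e := h8
      _ = ((e : ℝ) + 1) ^ (e + 1) := by ring
  have h9 : (((e + 2) ^ e : ℕ) : ℝ) < (((e + 1) ^ (e + 1) : ℕ) : ℝ) := by
    push_cast
    exact h3
  exact_mod_cast h9

theorem F_pos {D : ℕ} (hD : 2 ≤ D) {x : ℕ} (hx : 1 ≤ x) : 1 ≤ F D x := by
  unfold F
  split_ifs with h1 h2
  · have h3 := Nat.div_add_mod x D
    rw [h1, add_zero] at h3
    rcases Nat.eq_zero_or_pos (x / D) with h4 | h4
    · rw [h4] at h3; omega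
    · exact h4
  · omega
  · have h3 : x % D < D := Nat.mod_lt _ (by omega)
    have h4 : x % D ≤ x := Nat.mod_le _ _
    have h5 : (D + 1) * x = D * x + x := by ring
    have h6 : 2 * 1 ≤ D * x := Nat.mul_le_mul hD hx
    omega

/-- `T x` for a multiple of `D` -/
theorem T_of_dvd {D : ℕ} (hD : 2 ≤ D) {x : ℕ} (h : x % D = 0) :
    GC.Tm D (mm D) (rr D) (x : ℤ) = ((F D x : ℕ) : ℤ) := by
  unfold GC.Tm F
  have h1 : ((x : ℤ) % (D : ℤ)).toNat = 0 := by
    have : ((x : ℤ) % (D : ℤ)) = ((x % D : ℕ) : ℤ) := by push_cast; rfl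
    rw [this, h]; rfl
  rw [h1, if_pos h]
  simp [mm, rr]

/-- if `D ∤ x`, then `T x` is the second iterate of Wiggin's map -/
theorem T_of_not_dvd {D : ℕ} (hD : 2 ≤ D) {x : ℕ} (h : x % D ≠ 0) :
    GC.Tm D (mm D) (rr D) (x : ℤ) = ((F D (F D x) : ℕ) : ℤ) := by
  have hlt : x % D < D := Nat.mod_lt _ (by omega)
  have h1 : ((x : ℤ) % (D : ℤ)).toNat = x % D := by
    have : ((x : ℤ) % (D : ℤ)) = ((x % D : ℕ) : ℤ) := by push_cast; rfl
    rw [this]; rfl
  have hdv := adm hD (x % D) hlt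
  -- `F x` as an integer
  have hF : ((F D x : ℕ) : ℤ) = mm D (x % D) * x - rr D (x % D) := by
    unfold F mm rr
    rw [if_neg h, if_neg h, if_neg h]
    split_ifs with h2
    · push_cast; ring
    · have h4 : x % D ≤ x := Nat.mod_le _ _
      have h5 : x % D ≤ (D + 1) * x := by
        have : x ≤ (D + 1) * x := Nat.le_mul_of_pos_left _ (by omega)
        omega
      push_cast [Nat.cast_sub h5]
      ring
  have hdvd : (D : ℤ) ∣ ((F D x : ℕ) : ℤ) := by
    rw [hF]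
    have h3 : (D : ℤ) ∣ mm D (x % D) * ((x : ℤ) - ((x % D : ℕ) : ℤ)) := by
      apply Dvd.dvd.mul_left
      push_cast
      exact Int.dvd_self_sub_emod
    have h4 : mm D (x % D) * (x : ℤ) - rr D (x % D) =
      mm D (x % D) * ((x : ℤ) - ((x % D : ℕ) : ℤ)) + (mm D (x % D) * ((x % D : ℕ) : ℤ) -
        rr D (x % D)) := by ring
    rw [h4]
    exact dvd_add h3 hdv
  have hmod : F D x % D = 0 := by
    have : D ∣ F D x := by exact_mod_cast hdvd
    exact Nat.mod_eq_zero_of_dvd this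
  have h2 : F D (F D x) = F D x / D := by
    conv_lhs => unfold F
    rw [if_pos]
    · rfl
    · exact hmod
  rw [h2]
  unfold GC.Tm
  rw [h1, ← hF]
  push_cast
  rfl

/-- every point of the `T`-orbit is a point of the `F`-orbit -/
theorem orbit {D : ℕ} (hD : 2 ≤ D) (k : ℕ) : ∀ x : ℕ, ∃ l : ℕ,
    (GC.Tm D (mm D) (rr D))^[k] (x : ℤ) = (((F D)^[l] x : ℕ) : ℤ) := by
  induction k with
  | zero => intro x; exact ⟨0, rfl⟩
  | succ k ih =>
    intro x
    obtain ⟨l, hl⟩ : ∃ l : ℕ, GC.Tm D (mm D) (rr D) (x : ℤ) = (((F D)^[l] x : ℕ) : ℤ) := by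
      by_cases h : x % D = 0
      · exact ⟨1, T_of_dvd hD h⟩
      · exact ⟨2, T_of_not_dvd hD h⟩
    obtain ⟨l', hl'⟩ := ih ((F D)^[l] x)
    refine ⟨l' + l, ?_⟩
    rw [Function.iterate_succ_apply, hl, hl', Function.iterate_add_apply]

end Pool.Agent.H319R3.Wiggin
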